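import Pool.Agent.Y994.KW.Stm

set_option autoImplicit false

/-!
# Project KW, task QAM: second and fourth moments of almost additive functionals
-/

namespace Pool.Agent.Y484.KW

open Filter Topology Y994.KW

section Avg

variable {α : Type} [Fintype α]

theorem Ea_add (M : ℕ) (f g : (Fin M → α) → ℝ) :
    Ea M (fun c => f c + g c) = Ea M f + Ea M g := by
  unfold Ea
  rw [Finset.sum_add_distrib, add_div]

theorem Ea_mul (M : ℕ) (r : ℝ) (f : (Fin M → α) → ℝ) :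
    Ea M (fun c => r * f c) = r * Ea M f := by
  unfold Ea
  rw [← Finset.mul_sum, mul_div_assoc]

theorem Ea_le (M : ℕ) (f g : (Fin M → α) → ℝ) (h : ∀ c, f c ≤ g c) : Ea M f ≤ Ea M g := by
  unfold Ea
  exact div_le_div_of_nonneg_right (Finset.sum_le_sum fun c _ => h c) (by positivity)

theorem Ea_nn (M : ℕ) (f : (Fin M → α) → ℝ) (h : ∀ c, 0 ≤ f c) : 0 ≤ Ea M f := by
  unfold Ea
  exact div_nonneg (Finset.sum_nonneg fun c _ => h c) (by positivity)

theorem Ea_prod (M M' : ℕ) (f : (Fin M → α) → ℝ) (g : (Fin M' → α) → ℝ) :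
    Ea (M + M') (fun c => f (lft M M' c) * g (rgt M M' c)) = Ea M f * Ea M' g := by
  unfold Ea
  rw [div_mul_div_comm, ← pow_add, Finset.sum_mul_sum, ← Finset.sum_product',
    Finset.univ_product_univ]
  congr 1
  exact Equiv.sum_comp (Fin.appendEquiv M M' (α := α)).symm (fun p => f p.1 * g p.2)

theorem Ea_one [Nonempty α] (M : ℕ) (r : ℝ) : Ea M (fun _ : Fin M → α => r) = r := by
  unfold Ea
  have h : (Fintype.card α : ℝ) ^ M ≠ 0 := by
    have := Fintype.card_pos (α := α)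
    positivity
  rw [Finset.sum_const, Finset.card_univ, Fintype.card_fun, Fintype.card_fin, nsmul_eq_mul,
    Nat.cast_pow, mul_comm, mul_div_assoc, div_self h, mul_one]

theorem Ea_lft [Nonempty α] (M M' : ℕ) (f : (Fin M → α) → ℝ) :
    Ea (M + M') (fun c => f (lft M M' c)) = Ea M f := by
  have h := Ea_prod M M' f (fun _ => 1)
  rw [Ea_one, mul_one] at h
  rw [← h]
  simp only [mul_one]

theorem Ea_rgt [Nonempty α] (M M' : ℕ) (g : (Fin M' → α) → ℝ) :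
    Ea (M + M') (fun c => g (rgt M M' c)) = Ea M' g := by
  have h := Ea_prod M M' (fun _ => 1) g
  rw [Ea_one, one_mul] at h
  rw [← h]
  simp only [one_mul]

/-- Cauchy and Schwarz -/
theorem Ea_cs (M : ℕ) (f g : (Fin M → α) → ℝ) :
    (Ea M (fun c => f c * g c)) ^ 2 ≤ Ea M (fun c => f c ^ 2) * Ea M (fun c => g c ^ 2) := by
  unfold Ea
  rw [div_pow, div_mul_div_comm, ← sq]
  exact div_le_div_of_nonneg_right (Finset.sum_mul_sq_le_sq_mul_sq _ _ _) (by positivity)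

theorem Ea_42 [Nonempty α] (M : ℕ) (f : (Fin M → α) → ℝ) :
    (Ea M (fun c => f c ^ 2)) ^ 2 ≤ Ea M (fun c => f c ^ 4) := by
  have h := Ea_cs M (fun c => f c ^ 2) (fun _ => 1)
  simp only [mul_one, one_pow] at h
  rw [Ea_one, mul_one] at h
  refine h.trans (le_of_eq ?_)
  congr 1
  funext c
  ring

/-- Minkowski -/
theorem mink (M : ℕ) (f g : (Fin M → α) → ℝ) :
    √(Ea M (fun c => (f c + g c) ^ 2)) ≤ √(Ea M (fun c => f c ^ 2)) + √(Ea M (fun c => g c ^ 2)) := by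
  have hf : 0 ≤ Ea M (fun c => f c ^ 2) := Ea_nn M _ fun c => sq_nonneg _
  have hg : 0 ≤ Ea M (fun c => g c ^ 2) := Ea_nn M _ fun c => sq_nonneg _
  have h1 : Ea M (fun c => f c * g c) ≤ √(Ea M (fun c => f c ^ 2)) * √(Ea M (fun c => g c ^ 2)) := by
    rw [← Real.sqrt_mul hf]
    exact Real.le_sqrt_of_sq_le (Ea_cs M f g)
  have h2 : Ea M (fun c => (f c + g c) ^ 2) =
      Ea M (fun c => f c ^ 2) + 2 * Ea M (fun c => f c * g c) + Ea M (fun c => g c ^ 2) := by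
    rw [← Ea_mul, ← Ea_add, ← Ea_add]
    congr 1
    funext c
    ring
  apply Real.sqrt_le_iff.mpr ⟨by positivity, ?_⟩
  rw [h2]
  nlinarith [Real.sq_sqrt hf, Real.sq_sqrt hg]

end Avg

/-! ## second moments -/

section Sec

variable {α : Type} [Fintype α] [Nonempty α] {Y : ∀ M : ℕ, (Fin M → α) → ℝ} {B D : ℝ} {m0 : ℕ}

/-- the error in the quadratic mean -/
theorem err2 (hQ : Qa Y B D m0) (M M' : ℕ) : √(Ea (M + M') (fun c => (Y (M + M') c - Y M (lft M M' c)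
    - Y M' (rgt M M' c)) ^ 2)) ≤ B := by
  apply Real.sqrt_le_iff.mpr ⟨hQ.Bpos.le, ?_⟩
  refine le_of_abs_le (abs_le_of_sq_le_sq ?_ (by positivity))
  refine (Ea_42 _ _).trans ((hQ.err M M').trans (le_of_eq ?_))
  ring

theorem sum2 (hQ : Qa Y B D m0) (M M' : ℕ) :
    Ea (M + M') (fun c => (Y M (lft M M' c) + Y M' (rgt M M' c)) ^ 2) =
      Ea M (fun c => Y M c ^ 2) + Ea M' (fun c => Y M' c ^ 2) := by
  have h : (fun c : Fin (M + M') → α => (Y M (lft M M' c) + Y M' (rgt M M' c)) ^ 2) =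
      fun c => (Y M (lft M M' c) ^ 2 + 2 * (Y M (lft M M' c) * Y M' (rgt M M' c))) +
        Y M' (rgt M M' c) ^ 2 := by
    funext c
    ring
  rw [h, Ea_add, Ea_add, Ea_mul, Ea_prod M M' (Y M) (Y M'), hQ.mean, Ea_lft M M' (fun c => Y M c ^ 2),
    Ea_rgt M M' (fun c => Y M' c ^ 2)]
  ring

theorem step2 (hQ : Qa Y B D m0) (M M' : ℕ) : |√(Ea (M + M') (fun c => Y (M + M') c ^ 2)) -
    √(Ea M (fun c => Y M c ^ 2) + Ea M' (fun c => Y M' c ^ 2))| ≤ B := by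
  have h1 := mink (M + M') (fun c => Y M (lft M M' c) + Y M' (rgt M M' c))
    (fun c => Y (M + M') c - Y M (lft M M' c) - Y M' (rgt M M' c))
  have h2 := mink (M + M') (fun c => Y (M + M') c)
    (fun c => -(Y (M + M') c - Y M (lft M M' c) - Y M' (rgt M M' c)))
  have h3 := err2 hQ M M'
  rw [sum2 hQ] at h1
  have e1 : (fun c : Fin (M + M') → α => (Y M (lft M M' c) + Y M' (rgt M M' c) +
      (Y (M + M') c - Y M (lft M M' c) - Y M' (rgt M M' c))) ^ 2) = fun c => Y (M + M') c ^ 2 := by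
    funext c
    ring
  have e2 : (fun c : Fin (M + M') → α => (Y (M + M') c +
      -(Y (M + M') c - Y M (lft M M' c) - Y M' (rgt M M' c))) ^ 2) =
      fun c => (Y M (lft M M' c) + Y M' (rgt M M' c)) ^ 2 := by
    funext c
    ring
  have e3 : (fun c : Fin (M + M') → α =>
      (-(Y (M + M') c - Y M (lft M M' c) - Y M' (rgt M M' c))) ^ 2) =
      fun c => (Y (M + M') c - Y M (lft M M' c) - Y M' (rgt M M' c)) ^ 2 := by
    funext c
    ring
  rw [e1] at h1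
  rw [e2, e3, sum2 hQ] at h2
  rw [abs_le]
  constructor <;> linarith

omit [Nonempty α] in
theorem D_nonneg (hQ : Qa Y B D m0) : 0 ≤ D := by
  refine ge_of_tendsto' hQ.var fun M => ?_
  exact div_nonneg (Ea_nn M _ fun c => sq_nonneg _) (Nat.cast_nonneg _)

theorem dyad (hQ : Qa Y B D m0) (M k : ℕ) :
    |√(Ea (2 ^ k * M) (fun c => Y (2 ^ k * M) c ^ 2) / 2 ^ k) - √(Ea M (fun c => Y M c ^ 2))| ≤
      3 * B * (1 - (3 / 4) ^ k) := by
  obtain ⟨a, ha⟩ : ∃ a : ℕ → ℝ, ∀ m, a m = Ea m (fun c => Y m c ^ 2) := ⟨_, fun _ => rfl⟩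
  have hstep : ∀ m, |√(a (m + m)) - √(2 * a m)| ≤ B := by
    intro m
    have h := step2 hQ m m
    rw [← ha, ← ha, ← two_mul (a m)] at h
    exact h
  have han : ∀ m, 0 ≤ a m := fun m => by rw [ha]; exact Ea_nn m _ fun c => sq_nonneg _
  rw [← ha, ← ha]
  induction k with
  | zero => simp
  | succ k ih =>
    have hp : (0 : ℝ) < 2 ^ (k + 1) := by positivity
    have h1 := hstep (2 ^ k * M)
    have e1 : 2 ^ k * M + 2 ^ k * M = 2 ^ (k + 1) * M := by ring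
    rw [e1] at h1
    have e2 : √(a (2 ^ (k + 1) * M) / 2 ^ (k + 1)) = √(a (2 ^ (k + 1) * M)) / √(2 ^ (k + 1)) :=
      Real.sqrt_div (han _) _
    have e3 : √(a (2 ^ k * M) / 2 ^ k) = √(2 * a (2 ^ k * M)) / √(2 ^ (k + 1)) := by
      rw [← Real.sqrt_div (mul_nonneg zero_le_two (han _))]
      congr 1
      rw [pow_succ]
      field_simp
    have h2 : |√(a (2 ^ (k + 1) * M) / 2 ^ (k + 1)) - √(a (2 ^ k * M) / 2 ^ k)| ≤
        B * (3 / 4) ^ (k + 1) := by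
      rw [e2, e3, ← sub_div, abs_div, abs_of_pos (Real.sqrt_pos.mpr hp), div_le_iff₀
        (Real.sqrt_pos.mpr hp)]
      refine h1.trans ?_
      have h3 : (1 : ℝ) ≤ (3 / 4) ^ (k + 1) * √(2 ^ (k + 1)) := by
        refine le_of_abs_le (abs_le_of_sq_le_sq ?_ (by positivity))
        rw [mul_pow, Real.sq_sqrt hp.le, ← pow_mul, mul_comm (k + 1) 2, pow_mul, ← mul_pow, one_pow]
        exact one_le_pow₀ (by norm_num)
      nlinarith [hQ.Bpos]
    have h4 := abs_sub_le (√(a (2 ^ (k + 1) * M) / 2 ^ (k + 1))) (√(a (2 ^ k * M) / 2 ^ k)) (√(a M))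
    have h5 : 3 * B * (1 - (3 / 4) ^ (k + 1)) = B * (3 / 4) ^ (k + 1) + 3 * B * (1 - (3 / 4) ^ k) := by
      rw [pow_succ]
      ring
    rw [h5]
    linarith

theorem sec (hQ : Qa Y B D m0) (M : ℕ) : |√(Ea M (fun c => Y M c ^ 2)) - √(D * M)| ≤ 3 * B := by
  rcases Nat.eq_zero_or_pos M with rfl | hM
  · have h1 := Ea_42 0 (Y 0)
    have h2 := hQ.short 0 (Nat.zero_le _)
    have h3 : √(Ea 0 (fun c => Y 0 c ^ 2)) ≤ B := by
      apply Real.sqrt_le_iff.mpr ⟨hQ.Bpos.le, ?_⟩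
      refine le_of_abs_le (abs_le_of_sq_le_sq ?_ (by positivity))
      refine h1.trans (h2.trans (le_of_eq ?_))
      ring
    rw [Nat.cast_zero, mul_zero, Real.sqrt_zero, sub_zero, abs_of_nonneg (Real.sqrt_nonneg _)]
    linarith [hQ.Bpos]
  · have hM0 : (0 : ℝ) < M := by exact_mod_cast hM
    have h1 : Tendsto (fun k : ℕ => 2 ^ k * M) atTop atTop :=
      (tendsto_pow_atTop_atTop_of_one_lt (by norm_num : 1 < 2)).atTop_mul_const' hM
    have h2 := (hQ.var.comp h1).mul_const (M : ℝ)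
    have h3 : Tendsto (fun k : ℕ => √(Ea (2 ^ k * M) (fun c => Y (2 ^ k * M) c ^ 2) / 2 ^ k)) atTop
        (𝓝 √(D * M)) := by
      refine (Real.continuous_sqrt.tendsto _).comp (h2.congr fun k => ?_)
      simp only [Function.comp_apply, Nat.cast_mul, Nat.cast_pow, Nat.cast_ofNat]
      field_simp
    have h4 := (h3.sub_const √(Ea M (fun c => Y M c ^ 2))).abs
    rw [abs_sub_comm]
    refine le_of_tendsto' h4 fun k => (dyad hQ M k).trans ?_
    have h5 : (0 : ℝ) < (3 / 4) ^ k := by positivity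
    nlinarith [hQ.Bpos]

end Sec

/-! ## fourth moments -/

section Fourth

variable {α : Type} [Fintype α] [Nonempty α] {Y : ∀ M : ℕ, (Fin M → α) → ℝ} {B D : ℝ} {m0 : ℕ}

theorem sum4 (hQ : Qa Y B D m0) (M M' : ℕ) :
    Ea (M + M') (fun c => (Y M (lft M M' c) + Y M' (rgt M M' c)) ^ 4) =
      Ea M (fun c => Y M c ^ 4) + 6 * (Ea M (fun c => Y M c ^ 2) * Ea M' (fun c => Y M' c ^ 2)) +
        Ea M' (fun c => Y M' c ^ 4) := by
  have h : (fun c : Fin (M + M') → α => (Y M (lft M M' c) + Y M' (rgt M M' c)) ^ 4) =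
      fun c => (((Y M (lft M M' c) ^ 4 + 4 * (Y M (lft M M' c) ^ 3 * Y M' (rgt M M' c))) +
        6 * (Y M (lft M M' c) ^ 2 * Y M' (rgt M M' c) ^ 2)) +
        4 * (Y M (lft M M' c) * Y M' (rgt M M' c) ^ 3)) + Y M' (rgt M M' c) ^ 4 := by
    funext c
    ring
  rw [h, Ea_add, Ea_add, Ea_add, Ea_add, Ea_mul, Ea_mul, Ea_mul,
    Ea_prod M M' (fun c => Y M c ^ 3) (Y M'), Ea_prod M M' (fun c => Y M c ^ 2) (fun c => Y M' c ^ 2),
    Ea_prod M M' (Y M) (fun c => Y M' c ^ 3), hQ.mean, hQ.mean, Ea_lft M M' (fun c => Y M c ^ 4),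
    Ea_rgt M M' (fun c => Y M' c ^ 4)]
  ring

theorem split4 (x y : ℝ) : (x + y) ^ 4 ≤ 6 / 5 * x ^ 4 + 8000 * y ^ 4 := by
  have h1 : (x + y) ^ 2 ≤ 20 / 19 * x ^ 2 + 20 * y ^ 2 := by nlinarith [sq_nonneg (x / 19 - y)]
  have h2 : (20 / 19 * x ^ 2 + 20 * y ^ 2) ^ 2 ≤ 6 / 5 * x ^ 4 + 8000 * y ^ 4 := by
    nlinarith [sq_nonneg (x ^ 2 / 19 - 19 * y ^ 2), sq_nonneg (x ^ 2), sq_nonneg (y ^ 2)]
  have h3 : (x + y) ^ 4 = ((x + y) ^ 2) ^ 2 := by ring
  rw [h3]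
  exact (pow_le_pow_left₀ (sq_nonneg _) h1 2).trans h2

theorem step4 (hQ : Qa Y B D m0) (M M' : ℕ) : Ea (M + M') (fun c => Y (M + M') c ^ 4) ≤
    6 / 5 * (Ea M (fun c => Y M c ^ 4) + 6 * (Ea M (fun c => Y M c ^ 2) *
      Ea M' (fun c => Y M' c ^ 2)) + Ea M' (fun c => Y M' c ^ 4)) + 8000 * B ^ 4 := by
  rw [← sum4 hQ]
  have h1 : Ea (M + M') (fun c => Y (M + M') c ^ 4) ≤ Ea (M + M') (fun c =>
      6 / 5 * (Y M (lft M M' c) + Y M' (rgt M M' c)) ^ 4 + 8000 * (Y (M + M') c - Y M (lft M M' c)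
    - Y M' (rgt M M' c)) ^ 4) := by
    apply Ea_le
    intro c
    have h := split4 (Y M (lft M M' c) + Y M' (rgt M M' c)) (Y (M + M') c - Y M (lft M M' c)
      - Y M' (rgt M M' c))
    have e : Y M (lft M M' c) + Y M' (rgt M M' c) + (Y (M + M') c - Y M (lft M M' c)
      - Y M' (rgt M M' c)) = Y (M + M') c := by ring
    rwa [e] at h
  rw [Ea_add, Ea_mul, Ea_mul] at h1
  have h2 := hQ.err M M'
  linarith

theorem four (hQ : Qa Y B D m0) (M : ℕ) (hM : m0 ≤ M) :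
    Ea M (fun c => Y M c ^ 4) ≤ 9000 * ((B ^ 2 / m0 + D) * M) ^ 2 := by
  have hD := D_nonneg hQ
  have hB := hQ.Bpos
  have hm : (1 : ℝ) ≤ m0 := by exact_mod_cast hQ.mpos
  obtain ⟨v, hv⟩ : ∃ v, v = B ^ 2 / m0 + D := ⟨_, rfl⟩
  have hvm : B ^ 2 ≤ v * m0 := by
    rw [hv, add_mul, div_mul_cancel₀ _ (by positivity)]
    nlinarith
  have hvD : D ≤ v := by
    rw [hv]
    have : 0 ≤ B ^ 2 / m0 := by positivity
    linarith
  rw [← hv]
  obtain ⟨a, ha⟩ : ∃ a : ℕ → ℝ, ∀ m, a m = Ea m (fun c => Y m c ^ 2) := ⟨_, fun _ => rfl⟩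
  obtain ⟨b, hb⟩ : ∃ b : ℕ → ℝ, ∀ m, b m = Ea m (fun c => Y m c ^ 4) := ⟨_, fun _ => rfl⟩
  have han : ∀ m, 0 ≤ a m := fun m => by rw [ha]; exact Ea_nn m _ fun c => sq_nonneg _
  have hstep : ∀ m m', b (m + m') ≤ 6 / 5 * (b m + 6 * (a m * a m') + b m') + 8000 * B ^ 4 := by
    intro m m'
    rw [hb, hb, hb, ha, ha]
    exact step4 hQ m m'
  have hsec : ∀ m : ℕ, a m ≤ 2 * (D * m) + 18 * B ^ 2 := by
    intro m
    have h1 := (abs_le.mp (sec hQ m)).2
    rw [← ha] at h1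
    have h2 : √(a m) ≤ √(D * m) + 3 * B := by linarith
    have h3 := pow_le_pow_left₀ (Real.sqrt_nonneg _) h2 2
    rw [Real.sq_sqrt (han m)] at h3
    have h4 := Real.sq_sqrt (mul_nonneg hD (Nat.cast_nonneg (α := ℝ) m))
    nlinarith [sq_nonneg (√(D * m) - 3 * B)]
  rw [← hb]
  have hshort : ∀ m, m ≤ 2 * m0 → b m ≤ B ^ 4 := fun m h => by rw [hb]; exact hQ.short m h
  induction M using Nat.strong_induction_on with
  | _ M ih =>
    rcases le_or_gt M (2 * m0) with h | h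
    · have h1 := hshort M h
      have h2 : B ^ 2 ≤ v * M := by
        have : (m0 : ℝ) ≤ M := by exact_mod_cast hM
        nlinarith [hD.trans hvD]
      have h3 := pow_le_pow_left₀ (sq_nonneg B) h2 2
      nlinarith
    · have h1 : m0 ≤ M / 2 := by omega
      have h2 : m0 ≤ M - M / 2 := by omega
      have h3 := ih (M / 2) (by omega) h1
      have h4 := ih (M - M / 2) (by have := hQ.mpos; omega) h2
      have h5 := hstep (M / 2) (M - M / 2)
      have e : M / 2 + (M - M / 2) = M := by omega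
      rw [e] at h5
      obtain ⟨x, hx⟩ : ∃ x : ℝ, x = ((M / 2 : ℕ) : ℝ) := ⟨_, rfl⟩
      obtain ⟨y, hy⟩ : ∃ y : ℝ, y = ((M - M / 2 : ℕ) : ℝ) := ⟨_, rfl⟩
      have hxy : x + y = M := by rw [hx, hy, ← Nat.cast_add, e]
      have hx3 : (M : ℝ) ≤ 3 * x := by
        rw [hx]
        have : M ≤ 3 * (M / 2) := by have := hQ.mpos; omega
        exact_mod_cast this
      have hy3 : (M : ℝ) ≤ 3 * y := by
        rw [hy]
        have : M ≤ 3 * (M - M / 2) := by omega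
        exact_mod_cast this
      have h2m : 2 * (m0 : ℝ) ≤ M := by exact_mod_cast h.le
      have hM0 : (0 : ℝ) ≤ M := Nat.cast_nonneg _
      have hv0 : 0 ≤ v := hD.trans hvD
      have hBV : 2 * B ^ 2 ≤ v * M := by nlinarith
      have s1 := hsec (M / 2)
      have s2 := hsec (M - M / 2)
      rw [← hx] at s1 h3
      rw [← hy] at s2 h4
      have s3 : a (M / 2) ≤ 11 * (v * M) := by nlinarith
      have s4 : a (M - M / 2) ≤ 11 * (v * M) := by nlinarith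
      have s5 : a (M / 2) * a (M - M / 2) ≤ (11 * (v * M)) * (11 * (v * M)) :=
        mul_le_mul s3 s4 (han _) (by positivity)
      have s6 : B ^ 4 ≤ (v * M) ^ 2 / 4 := by
        have := pow_le_pow_left₀ (by positivity) hBV 2
        nlinarith
      have s7 : (v * x) ^ 2 + (v * y) ^ 2 ≤ 5 / 9 * (v * M) ^ 2 := by
        have : x ^ 2 + y ^ 2 ≤ 5 / 9 * (M : ℝ) ^ 2 := by
          nlinarith [mul_nonneg (sub_nonneg.mpr hx3) (sub_nonneg.mpr hy3)]
        nlinarith [mul_le_mul_of_nonneg_left this (sq_nonneg v)]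
      linarith [sq_nonneg (v * (M : ℝ))]

end Fourth

theorem t_QAM : S_QAM := by
  refine ⟨18000, by norm_num, ?_⟩
  intro α _ _ Y B D m0 hQ
  have hB := hQ.Bpos
  refine ⟨D_nonneg hQ, fun M => (sec hQ M).trans (by linarith), ?_⟩
  intro M hM
  refine (four hQ M hM).trans ?_
  have hD := D_nonneg hQ
  have e : (B ^ 2 / (m0 : ℝ) + D) * M = B ^ 2 * ((M : ℝ) / m0) + D * M := by ring
  rw [e]
  have h1 : 0 ≤ D * M := mul_nonneg hD (Nat.cast_nonneg _)
  nlinarith [sq_nonneg (B ^ 2 * ((M : ℝ) / m0) - D * M), sq_nonneg B]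

end Pool.Agent.Y484.KW
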